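import Pool.Agent.Lib.MP_7f565b_co.Basic

/-!
Q1 of MP_7f565b_co: a connected graph on 11 vertices that is gamma-edge-critical (gamma = 4) but not
ir-edge-critical (ir = 3). Edges: 0-1 0-7 1-3 1-6 1-8 2-6 2-7 2-8 3-4 3-5 3-7 4-5 5-6 5-9 6-10
7-9 8-9 9-10.
-/

namespace Pool.Agent.Results.MP_7f565b_co.GammaNotIr

open Pool.Agent.Lib.MP_7f565b_co

theorem result : ∃ (n : ℕ) (G : SimpleGraph (Fin n)),
    G.Connected ∧ IsEdgeCritical gamma G ∧ ¬ IsEdgeCritical ir G := by
  refine ⟨11, bitGraph 11 649195641088713054455227218542722, ?_, ?_, ?_⟩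
  · unfold bitGraph
    decide +kernel
  · intro u v huv hadj
    have h1 : ∀ u v : Fin 11, nb 11 649195641088713054455227218542722 u v = false →
        gammaLe (nb' 11 649195641088713054455227218542722 u v) 3 = true := by decide +kernel
    exact lt_of_le_of_lt (gamma_le_of (mem_nb' _ _ u v) (h1 u v (nb_false huv hadj)))
      (le_gamma_of (k := 4) (mem_nb _ _) (by decide +kernel))
  · intro h
    have h1 := h 0 2 (by decide) (not_adj_of_nb (by decide +kernel))
    have h2 := le_ir_of (k := 3) (mem_nb' 11 649195641088713054455227218542722 0 2)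
      (by decide +kernel)
    have h3 := ir_le_of (k := 3) (mem_nb 11 649195641088713054455227218542722) (by decide +kernel)
    omega

end Pool.Agent.Results.MP_7f565b_co.GammaNotIr
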