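import Pool.Agent.Lib.MP_7f565b_co.Basic

/-!
Q2 of MP_7f565b_co: a connected graph on 10 vertices that is ir-edge-critical (ir = 3) but not
gamma-edge-critical (gamma = 3). Edges: 0-5 0-6 0-8 1-4 1-5 2-3 2-4 2-7 2-9 3-5 3-7 3-9 4-5 4-6
4-7 4-8 5-8 6-8 7-9 8-9.
-/

namespace Pool.Agent.Results.MP_7f565b_co.IrNotGamma

open Pool.Agent.Lib.MP_7f565b_co

theorem result : ∃ (n : ℕ) (G : SimpleGraph (Fin n)),
    G.Connected ∧ IsEdgeCritical ir G ∧ ¬ IsEdgeCritical gamma G := by
  refine ⟨10, bitGraph 10 619574777989161495373594976, ?_, ?_, ?_⟩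
  · unfold bitGraph
    decide +kernel
  · intro u v huv hadj
    have h1 : ∀ u v : Fin 10, nb 10 619574777989161495373594976 u v = false →
        irLe (nb' 10 619574777989161495373594976 u v) 2 = true := by decide +kernel
    exact lt_of_le_of_lt (ir_le_of (mem_nb' _ _ u v) (h1 u v (nb_false huv hadj)))
      (le_ir_of (k := 3) (mem_nb _ _) (by decide +kernel))
  · intro h
    have h1 := h 2 5 (by decide) (not_adj_of_nb (by decide +kernel))
    have h2 := le_gamma_of (k := 3) (mem_nb' 10 619574777989161495373594976 2 5)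
      (by decide +kernel)
    have h3 := gamma_le_of (k := 3) (mem_nb 10 619574777989161495373594976) (by decide +kernel)
    omega

end Pool.Agent.Results.MP_7f565b_co.IrNotGamma
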